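import Pool.Agent.Helper61.Tri.Goals2

/-!
# Counting triangles by the number of vertices in `X`: `CountX`
-/

set_option autoImplicit false

open Finset

namespace Pool.Agent.Helper27.Tri

open Pool.Agent.Helper61.Tri

open scoped Classical

theorem countx : CountX := by
  intro V _ G X s hs hX G' hG'
  have key : (ot G).card = ((ot G).filter fun t => t.1 ∈ X ∧ t.2.1 ∈ X ∧ t.2.2 ∈ X).card
      + ((ot G).filter fun t => t.1 ∈ X ∧ t.2.1 ∈ X ∧ t.2.2 ∉ X).card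
      + ((ot G).filter fun t => t.1 ∈ X ∧ t.2.1 ∉ X ∧ t.2.2 ∈ X).card
      + ((ot G).filter fun t => t.1 ∈ X ∧ t.2.1 ∉ X ∧ t.2.2 ∉ X).card
      + ((ot G).filter fun t => t.1 ∉ X ∧ t.2.1 ∈ X ∧ t.2.2 ∈ X).card
      + ((ot G).filter fun t => t.1 ∉ X ∧ t.2.1 ∈ X ∧ t.2.2 ∉ X).card
      + ((ot G).filter fun t => t.1 ∉ X ∧ t.2.1 ∉ X ∧ t.2.2 ∈ X).card
      + ((ot G).filter fun t => t.1 ∉ X ∧ t.2.1 ∉ X ∧ t.2.2 ∉ X).card := by
    rw [Finset.card_eq_sum_ones]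
    simp only [Finset.card_filter, ← Finset.sum_add_distrib]
    refine Finset.sum_congr rfl fun t _ => ?_
    by_cases hp : t.1 ∈ X <;> by_cases hq : t.2.1 ∈ X <;> by_cases hr : t.2.2 ∈ X <;>
      simp [hp, hq, hr]
  have hoff : X.offDiag.card = s * (s - 1) := by
    rw [Finset.offDiag_card, hX, Nat.mul_sub_one]
  have memot : ∀ t : V × V × V, t ∈ ot G ↔ G.Adj t.1 t.2.1 ∧ G.Adj t.1 t.2.2 ∧ G.Adj t.2.1 t.2.2 := by
    intro t
    simp [ot]
  have memoe : ∀ p : V × V, p ∈ oe G' ↔ G.Adj p.1 p.2 ∧ p.1 ∉ X ∧ p.2 ∉ X := by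
    intro p
    rw [hG']
    simp [oe, within]
  -- the pairs in `X`
  set E : Finset ((V × V) × V) := (X.offDiag ×ˢ Xᶜ).filter
    (fun t => G.Adj t.1.1 t.1.2 ∧ G.Adj t.1.1 t.2 ∧ G.Adj t.1.2 t.2) with hE
  have memE : ∀ t : (V × V) × V, t ∈ E ↔ (t.1.1 ∈ X ∧ t.1.2 ∈ X ∧ t.1.1 ≠ t.1.2) ∧ t.2 ∉ X ∧
      G.Adj t.1.1 t.1.2 ∧ G.Adj t.1.1 t.2 ∧ G.Adj t.1.2 t.2 := by
    intro t
    simp only [hE, Finset.mem_filter, Finset.mem_product, Finset.mem_offDiag, Finset.mem_compl]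
    tauto
  have hEle : E.card ≤ s * (s - 1) * (Xᶜ).card := by
    refine (Finset.card_filter_le _ _).trans ?_
    rw [Finset.card_product, hoff]
  have h111 : ((ot G).filter fun t => t.1 ∈ X ∧ t.2.1 ∈ X ∧ t.2.2 ∈ X).card ≤
      s * (s - 1) * (s - 2) := by
    have := Finset.card_le_mul_card_image_of_maps_to (f := fun t : V × V × V => (t.1, t.2.1))
      (s := (ot G).filter fun t => t.1 ∈ X ∧ t.2.1 ∈ X ∧ t.2.2 ∈ X) (t := X.offDiag) ?_ (s - 2) ?_
    · rw [hoff] at this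
      calc _ ≤ _ := this
        _ = _ := by ring
    · intro t ht
      rw [Finset.mem_filter, memot] at ht
      rw [Finset.mem_offDiag]
      exact ⟨ht.2.1, ht.2.2.1, ht.1.1.ne⟩
    · intro b hb
      rw [Finset.mem_offDiag] at hb
      have hc : ((X.erase b.1).erase b.2).card = s - 2 := by
        rw [Finset.card_erase_of_mem, Finset.card_erase_of_mem hb.1, hX]
        · omega
        · exact Finset.mem_erase.2 ⟨hb.2.2.symm, hb.2.1⟩
      rw [← hc]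
      refine Finset.card_le_card_of_injOn (fun t : V × V × V => t.2.2) ?_ ?_
      · intro t ht
        rw [Finset.mem_coe, Finset.mem_filter, Finset.mem_filter, memot] at ht
        rw [Finset.mem_coe, Finset.mem_erase, Finset.mem_erase, ← ht.2]
        exact ⟨ht.1.1.2.2.ne.symm, ht.1.1.2.1.ne.symm, ht.1.2.2.2⟩
      · intro t ht t' ht' h
        rw [Finset.mem_coe, Finset.mem_filter] at ht ht'
        have h1 : (t.1, t.2.1) = (t'.1, t'.2.1) := ht.2.trans ht'.2.symm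
        have h2 := (Prod.ext_iff.1 h1)
        exact Prod.ext h2.1 (Prod.ext h2.2 h)
  have h110 : ((ot G).filter fun t => t.1 ∈ X ∧ t.2.1 ∈ X ∧ t.2.2 ∉ X).card ≤ E.card := by
    refine Finset.card_le_card_of_injOn (fun t : V × V × V => ((t.1, t.2.1), t.2.2)) ?_ ?_
    · intro t ht
      rw [Finset.mem_coe, Finset.mem_filter, memot] at ht
      rw [Finset.mem_coe, memE]
      exact ⟨⟨ht.2.1, ht.2.2.1, ht.1.1.ne⟩, ht.2.2.2, ht.1.1, ht.1.2.1, ht.1.2.2⟩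
    · intro t ht t' ht' h
      have h2 := (Prod.ext_iff.1 h)
      have h3 := (Prod.ext_iff.1 h2.1)
      exact Prod.ext h3.1 (Prod.ext h3.2 h2.2)
  have h101 : ((ot G).filter fun t => t.1 ∈ X ∧ t.2.1 ∉ X ∧ t.2.2 ∈ X).card ≤ E.card := by
    refine Finset.card_le_card_of_injOn (fun t : V × V × V => ((t.1, t.2.2), t.2.1)) ?_ ?_
    · intro t ht
      rw [Finset.mem_coe, Finset.mem_filter, memot] at ht
      rw [Finset.mem_coe, memE]
      exact ⟨⟨ht.2.1, ht.2.2.2, ht.1.2.1.ne⟩, ht.2.2.1, ht.1.2.1, ht.1.1, ht.1.2.2.symm⟩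
    · intro t ht t' ht' h
      have h2 := (Prod.ext_iff.1 h)
      have h3 := (Prod.ext_iff.1 h2.1)
      exact Prod.ext h3.1 (Prod.ext h2.2 h3.2)
  have h011 : ((ot G).filter fun t => t.1 ∉ X ∧ t.2.1 ∈ X ∧ t.2.2 ∈ X).card ≤ E.card := by
    refine Finset.card_le_card_of_injOn (fun t : V × V × V => ((t.2.1, t.2.2), t.1)) ?_ ?_
    · intro t ht
      rw [Finset.mem_coe, Finset.mem_filter, memot] at ht
      rw [Finset.mem_coe, memE]
      exact ⟨⟨ht.2.2.1, ht.2.2.2, ht.1.2.2.ne⟩, ht.2.1, ht.1.2.2, ht.1.1.symm, ht.1.2.1.symm⟩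
    · intro t ht t' ht' h
      have h2 := (Prod.ext_iff.1 h)
      have h3 := (Prod.ext_iff.1 h2.1)
      exact Prod.ext h2.2 (Prod.ext h3.1 h3.2)
  have hXoe : (X ×ˢ oe G').card = s * (oe G').card := by
    rw [Finset.card_product, hX]
  have h100 : ((ot G).filter fun t => t.1 ∈ X ∧ t.2.1 ∉ X ∧ t.2.2 ∉ X).card ≤
      s * (oe G').card := by
    rw [← hXoe]
    refine Finset.card_le_card_of_injOn (fun t : V × V × V => (t.1, (t.2.1, t.2.2))) ?_ ?_
    · intro t ht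
      rw [Finset.mem_coe, Finset.mem_filter, memot] at ht
      rw [Finset.mem_coe, Finset.mem_product, memoe]
      exact ⟨ht.2.1, ht.1.2.2, ht.2.2.1, ht.2.2.2⟩
    · intro t ht t' ht' h
      exact h
  have h010 : ((ot G).filter fun t => t.1 ∉ X ∧ t.2.1 ∈ X ∧ t.2.2 ∉ X).card ≤
      s * (oe G').card := by
    rw [← hXoe]
    refine Finset.card_le_card_of_injOn (fun t : V × V × V => (t.2.1, (t.1, t.2.2))) ?_ ?_
    · intro t ht
      rw [Finset.mem_coe, Finset.mem_filter, memot] at ht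
      rw [Finset.mem_coe, Finset.mem_product, memoe]
      exact ⟨ht.2.2.1, ht.1.2.1, ht.2.1, ht.2.2.2⟩
    · intro t ht t' ht' h
      have h2 := (Prod.ext_iff.1 h)
      have h3 := (Prod.ext_iff.1 h2.2)
      exact Prod.ext h3.1 (Prod.ext h2.1 h3.2)
  have h001 : ((ot G).filter fun t => t.1 ∉ X ∧ t.2.1 ∉ X ∧ t.2.2 ∈ X).card ≤
      s * (oe G').card := by
    rw [← hXoe]
    refine Finset.card_le_card_of_injOn (fun t : V × V × V => (t.2.2, (t.1, t.2.1))) ?_ ?_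
    · intro t ht
      rw [Finset.mem_coe, Finset.mem_filter, memot] at ht
      rw [Finset.mem_coe, Finset.mem_product, memoe]
      exact ⟨ht.2.2.2, ht.1.1, ht.2.1, ht.2.2.1⟩
    · intro t ht t' ht' h
      have h2 := (Prod.ext_iff.1 h)
      have h3 := (Prod.ext_iff.1 h2.2)
      exact Prod.ext h3.1 (Prod.ext h3.2 h2.1)
  have h000 : ((ot G).filter fun t => t.1 ∉ X ∧ t.2.1 ∉ X ∧ t.2.2 ∉ X).card ≤ (ot G').card := by
    refine Finset.card_le_card ?_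
    intro t ht
    rw [Finset.mem_filter, memot] at ht
    rw [hG']
    simp only [ot, within, Finset.mem_filter, Finset.mem_univ, true_and, Finset.mem_compl]
    exact ⟨⟨ht.1.1, ht.2.1, ht.2.2.1⟩, ⟨ht.1.2.1, ht.2.1, ht.2.2.2⟩, ht.1.2.2, ht.2.2.1, ht.2.2.2⟩
  have e1 : 3 * s * (oe G').card = 3 * (s * (oe G').card) := by ring
  have e2 : 3 * s * (s - 1) * (Xᶜ).card = 3 * (s * (s - 1) * (Xᶜ).card) := by ring
  rw [e1, e2]
  refine ⟨by omega, ?_⟩
  intro heq hm x hx v hv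
  have hEc : E.card = s * (s - 1) * (Xᶜ).card := by omega
  have hall : ∀ t ∈ X.offDiag ×ˢ Xᶜ, G.Adj t.1.1 t.1.2 ∧ G.Adj t.1.1 t.2 ∧ G.Adj t.1.2 t.2 := by
    have h1 : E.card = (X.offDiag ×ˢ Xᶜ).card := by
      rw [hEc, Finset.card_product, hoff]
    rw [hE] at h1
    exact Finset.card_filter_eq_iff.1 h1
  by_cases hvX : v ∈ X
  · obtain ⟨w, hw⟩ := Finset.card_pos.1 hm
    exact (hall ((x, v), w) (Finset.mem_product.2 ⟨Finset.mem_offDiag.2 ⟨hx, hvX, hv.symm⟩, hw⟩)).1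
  · obtain ⟨x', hx', hne⟩ := Finset.exists_mem_ne (s := X) (by omega) x
    exact (hall ((x, x'), v) (Finset.mem_product.2 ⟨Finset.mem_offDiag.2 ⟨hx, hx', hne.symm⟩,
      Finset.mem_compl.2 hvX⟩)).2.1

end Pool.Agent.Helper27.Tri
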