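import Pool.Agent.Helper61.Tri.Goals2
import Pool.Agent.Helper1.HyperRamsey

/-!
# Ramsey for pairs of naturals in the enumerated form `Ramsey2`
-/

set_option autoImplicit false

namespace Pool.Agent.Helper27.Tri

open Pool.Agent.Helper61.Tri

theorem ramsey2 : Ramsey2 := by
  classical
  intro c m
  obtain ⟨N, hN⟩ := Pool.Agent.Helper1.hyper_ramsey 2 m (c + 1)
  refine ⟨N, fun χ => ?_⟩
  let col : Finset ℕ → Fin (c + 1) := fun s =>
    if h : s.Nonempty then χ (s.min' h) (s.max' h) else 0
  obtain ⟨H, hH, hcard, a, ha⟩ := hN col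
  let f : Fin m ↪o ℕ := H.orderEmbOfFin hcard
  let e : ℕ → ℕ := fun i => if h : i < m then f ⟨i, h⟩ else 0
  have he : ∀ i (h : i < m), e i = f ⟨i, h⟩ := fun i h => dif_pos h
  have hfH : ∀ i, f i ∈ H := fun i => Finset.orderEmbOfFin_mem H hcard i
  refine ⟨e, a, ?_, ?_, ?_⟩
  · intro i hi
    rw [he i hi]
    exact Finset.mem_range.1 (hH (hfH _))
  · intro i j hij hj
    rw [he i (hij.trans hj), he j hj]
    exact f.strictMono hij
  · intro i j hij hj
    have hlt : e i < e j := by
      rw [he i (hij.trans hj), he j hj]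
      exact f.strictMono hij
    have hsub : ({e i, e j} : Finset ℕ) ⊆ H := by
      intro x hx
      rcases Finset.mem_insert.1 hx with h | h
      · rw [h, he i (hij.trans hj)]; exact hfH _
      · rw [Finset.mem_singleton.1 h, he j hj]; exact hfH _
    have hc2 : ({e i, e j} : Finset ℕ).card = 2 := Finset.card_pair hlt.ne
    have hcol := ha _ hsub hc2
    have hne : ({e i, e j} : Finset ℕ).Nonempty := ⟨e i, Finset.mem_insert_self _ _⟩
    have hmin : ({e i, e j} : Finset ℕ).min' hne = e i := by
      refine le_antisymm (Finset.min'_le _ _ (Finset.mem_insert_self _ _)) ?_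
      refine Finset.le_min' _ _ _ ?_
      intro y hy
      rcases Finset.mem_insert.1 hy with h | h
      · rw [h]
      · rw [Finset.mem_singleton.1 h]; exact hlt.le
    have hmax : ({e i, e j} : Finset ℕ).max' hne = e j := by
      refine le_antisymm ?_ (Finset.le_max' _ _ (Finset.mem_insert_of_mem (Finset.mem_singleton_self _)))
      refine Finset.max'_le _ _ _ ?_
      intro y hy
      rcases Finset.mem_insert.1 hy with h | h
      · rw [h]; exact hlt.le
      · rw [Finset.mem_singleton.1 h]
    have h3 : col ({e i, e j} : Finset ℕ) = χ (e i) (e j) := by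
      show (if h : ({e i, e j} : Finset ℕ).Nonempty then
        χ (({e i, e j} : Finset ℕ).min' h) (({e i, e j} : Finset ℕ).max' h) else 0) = _
      rw [dif_pos hne, hmin, hmax]
    rw [← h3, hcol]

end Pool.Agent.Helper27.Tri
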